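import Pool.Agent.Helper4.TH.StD

/-!
# Project TH, module Sur: solving the inhomogeneous relation
-/

set_option autoImplicit false

namespace Pool.Agent.Helper9.TH

open Pool.Agent.Helper4.TH Pool.Agent.Helper93.TLH
open Pool.Agent.Helper14.W5 (tr5 Fn5 op5 oA Wd5 dX dY Lw bb5 S5Trm S5Low0 S5Nfa S5Lw1 S5Bb)

private theorem alg_Sur {V : Type} [AddCommGroup V] [Module (ZMod 5) V]
    (ρ ρ' M T X Y : Module.End (ZMod 5) V) (P Q : V) (h : ∀ v, ρ' v = ρ (M v))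
    {P1 Q3 E2 : V} (h1 : P1 = (3 : ZMod 5) • P - ρ P) (h2 : Q3 = ρ Q - (2 : ZMod 5) • Q)
    (h3 : E2 = (X P + Y Q) - X P1 - Y Q3 + (2 : ZMod 5) • X Q3) :
    (X P + Y Q) - (-P1 - T (-P1) - (((2 : ZMod 5) • Q3 + (2 : ZMod 5) • E2) -
      ρ ((2 : ZMod 5) • Q3 + (2 : ZMod 5) • E2)) -
      (-((2 : ZMod 5) • Q3) - ρ' (-((2 : ZMod 5) • Q3)))) =
    -(T P1 - P1 - X P1) + (2 : ZMod 5) • ρ (M Q3 - Q3 + X Q3 - (2 : ZMod 5) • Y Q3) -
      (ρ (X Q3) - (3 : ZMod 5) • X (ρ Q3)) - (ρ (Y Q3) - (2 : ZMod 5) • Y (ρ Q3)) +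
      (3 : ZMod 5) • (ρ (X (P - P1)) - (3 : ZMod 5) • X (ρ (P - P1))) +
      (3 : ZMod 5) • (ρ (Y (Q - Q3)) - (2 : ZMod 5) • Y (ρ (Q - Q3))) -
      X (ρ (ρ P) + P) + (2 : ZMod 5) • Y (ρ (ρ Q) + Q) + (2 : ZMod 5) • X (ρ (ρ Q) + Q) := by
  subst h3
  subst h1
  subst h2
  simp only [h, map_add, map_sub, map_neg, map_smul]
  match_scalars <;> decide

private theorem decomp_Sur (hLow0 : S5Low0) (hBb : S5Bb) (r s : ℕ) (e : ℤ) (E : Fn5 (5 ^ r) (5 ^ s))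
    (he : e < 5 ^ r + 5 ^ s - 2) (hE : E ∈ Wd5 e) :
    ∃ U V : Fn5 (5 ^ r) (5 ^ s), U ∈ Wd5 (e + 1) ∧ V ∈ Wd5 (e + 1) ∧ dX U + dY V = E := by
  obtain ⟨_, _, _, _, hmono, _⟩ := hLow0 r s
  obtain ⟨h1, h2, h3, _, _, h6⟩ := hBb r s
  set c : ℕ → ℕ → ZMod 5 := fun i j =>
    ((dX ^ i * dY ^ j : Module.End (ZMod 5) (Fn5 (5 ^ r) (5 ^ s))) E) 0 0 with hc
  have hc0 : ∀ i j : ℕ, e < (i : ℤ) + j → c i j = 0 := by
    intro i j hij
    have : ((dX ^ i * dY ^ j : Module.End (ZMod 5) (Fn5 (5 ^ r) (5 ^ s))) E) = 0 := hE i j hij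
    rw [hc]
    simp only [this]
    rfl
  have hj : ∀ i j : ℕ, i < 5 ^ r → (i : ℤ) + j ≤ e → ¬ (i + 1 < 5 ^ r) → j + 1 < 5 ^ s := by
    intro i j hi hij hi1
    have h7 : i + 1 = 5 ^ r := by omega
    have h8 : (i : ℤ) + 1 = 5 ^ r := by exact_mod_cast h7
    have h9 : (j : ℤ) + 1 < 5 ^ s := by linarith
    exact_mod_cast h9
  refine ⟨∑ i ∈ Finset.range (5 ^ r), ∑ j ∈ Finset.range (5 ^ s),
      (if i + 1 < 5 ^ r then c i j • bb5 (i + 1) j else 0),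
    ∑ i ∈ Finset.range (5 ^ r), ∑ j ∈ Finset.range (5 ^ s),
      (if i + 1 < 5 ^ r then 0 else c i j • bb5 i (j + 1)), ?_, ?_, ?_⟩
  · refine Submodule.sum_mem _ fun i hi => Submodule.sum_mem _ fun j hj => ?_
    rw [Finset.mem_range] at hi hj
    split_ifs with h
    · by_cases hij : (i : ℤ) + j ≤ e
      · refine Submodule.smul_mem _ _ (hmono _ _ ?_ (h1 (i + 1) j h hj))
        push_cast
        linarith
      · rw [hc0 i j (not_le.1 hij), zero_smul]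
        exact Submodule.zero_mem _
    · exact Submodule.zero_mem _
  · refine Submodule.sum_mem _ fun i hi => Submodule.sum_mem _ fun j _ => ?_
    rw [Finset.mem_range] at hi
    split_ifs with h
    · exact Submodule.zero_mem _
    · by_cases hij : (i : ℤ) + j ≤ e
      · refine Submodule.smul_mem _ _ (hmono _ _ ?_ (h1 i (j + 1) hi (hj i j hi hij h)))
        push_cast
        linarith
      · rw [hc0 i j (not_le.1 hij), zero_smul]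
        exact Submodule.zero_mem _
  · refine Eq.trans ?_ (h6 E).symm
    rw [map_sum, map_sum, ← Finset.sum_add_distrib]
    refine Finset.sum_congr rfl fun i hi => ?_
    rw [map_sum, map_sum, ← Finset.sum_add_distrib]
    refine Finset.sum_congr rfl fun j hj' => ?_
    rw [Finset.mem_range] at hi hj'
    have hcc : ((dX ^ i * dY ^ j : Module.End (ZMod 5) (Fn5 (5 ^ r) (5 ^ s))) E) 0 0 = c i j := rfl
    rw [hcc]
    by_cases h : i + 1 < 5 ^ r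
    · rw [if_pos h, if_pos h, map_smul, map_zero, add_zero, h2 i j h hj']
    · rw [if_neg h, if_neg h, map_smul, map_zero, zero_add]
      by_cases hij : (i : ℤ) + j ≤ e
      · rw [h3 i j hi (hj i j hi hij h)]
      · rw [hc0 i j (not_le.1 hij), zero_smul, zero_smul]

private theorem rho_sq (hTrm : S5Trm) (r s : ℕ) (F : Fn5 (5 ^ r) (5 ^ s)) :
    op5 4 (-1) 2 (-2) (op5 4 (-1) 2 (-2) F) = op5 3 (-1) 2 (-3) F := by
  have h7 := (hTrm (ZMod 5) r s F).1 4 (-1) 2 (-2) 4 (-1) 2 (-2) (by norm_num) (by norm_num)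
    (by norm_num) (by norm_num)
  have h8 := (hTrm (ZMod 5) r s F).2.2 2 3 (-1) 2 (-3) (by norm_num) (by norm_num) (by norm_num)
  norm_num at h7 h8
  exact h7.trans h8

private theorem rho_M (hTrm : S5Trm) (r s : ℕ) (F : Fn5 (5 ^ r) (5 ^ s)) :
    op5 6 (-5) 2 (-8) F = op5 4 (-1) 2 (-2) (op5 1 (-1) 2 (-9) F) := by
  have h7 := (hTrm (ZMod 5) r s F).1 4 (-1) 2 (-2) 1 (-1) 2 (-9) (by norm_num) (by norm_num)
    (by norm_num) (by norm_num)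
  have h8 := (hTrm (ZMod 5) r s F).2.2 (-1) 6 (-5) 2 (-8) (by norm_num) (by norm_num) (by norm_num)
  norm_num at h7 h8
  exact h8.symm.trans h7.symm

/-- One step of the induction. -/
private theorem step_Sur (hTrm : S5Trm) (hLow0 : S5Low0) (hNfa : S5Nfa) (hLw1 : S5Lw1)
    (hw : TLw1) (hBb : S5Bb) (r s : ℕ) (e : ℤ) (E : Fn5 (5 ^ r) (5 ^ s))
    (he : e < 5 ^ r + 5 ^ s - 2) (hE : E ∈ Wd5 e) :
    ∃ f a b : Fn5 (5 ^ r) (5 ^ s), f ∈ Wd5 (e + 1) ∧ a ∈ Wd5 (e + 1) ∧ b ∈ Wd5 (e + 1) ∧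
      E - (f - op5 1 1 0 1 f - (a - op5 4 (-1) 2 (-2) a) - (b - op5 6 (-5) 2 (-8) b)) ∈
        (Wd5 (e - 1) : Submodule (ZMod 5) (Fn5 (5 ^ r) (5 ^ s))) := by
  obtain ⟨_, _, _, _, hmono, _, hdX, hdY, _⟩ := hLow0 r s
  obtain ⟨_, _, _, _, hA, _⟩ := hNfa r s
  obtain ⟨hLw, -, -, -⟩ := hLw1 r s
  obtain ⟨hM, hcX, hcY, hev, hod, -⟩ := hw r s
  have hρ : ∀ (d : ℤ) (F : Fn5 (5 ^ r) (5 ^ s)), F ∈ Wd5 d → op5 4 (-1) 2 (-2) F ∈ Wd5 d := by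
    intro d F hF
    have := hLw 4 (-1) 2 (-2) (by norm_num) (by norm_num) d F hF
    rwa [sub_zero] at this
  rcases Int.even_or_odd e with hpar | hpar
  · obtain ⟨P, Q, hP, hQ, hPQ⟩ := decomp_Sur hLow0 hBb r s e E he hE
    have hodd : Odd (e + 1) := hpar.add_one
    obtain ⟨P1, hP1⟩ : ∃ P1 : Fn5 (5 ^ r) (5 ^ s),
      P1 = (3 : ZMod 5) • P - op5 4 (-1) 2 (-2) P := ⟨_, rfl⟩
    obtain ⟨Q3, hQ3⟩ : ∃ Q3 : Fn5 (5 ^ r) (5 ^ s),
      Q3 = op5 4 (-1) 2 (-2) Q - (2 : ZMod 5) • Q := ⟨_, rfl⟩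
    obtain ⟨E2, hE2⟩ : ∃ E2 : Fn5 (5 ^ r) (5 ^ s),
      E2 = (dX P + dY Q) - dX P1 - dY Q3 + (2 : ZMod 5) • dX Q3 := ⟨_, rfl⟩
    have hP1m : P1 ∈ (Wd5 (e + 1) : Submodule (ZMod 5) (Fn5 (5 ^ r) (5 ^ s))) := by
      rw [hP1]
      exact Submodule.sub_mem _ (Submodule.smul_mem _ _ hP) (hρ _ _ hP)
    have hQ3m : Q3 ∈ (Wd5 (e + 1) : Submodule (ZMod 5) (Fn5 (5 ^ r) (5 ^ s))) := by
      rw [hQ3]
      exact Submodule.sub_mem _ (hρ _ _ hQ) (Submodule.smul_mem _ _ hQ)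
    have hX : ∀ (d : ℤ) (F : Fn5 (5 ^ r) (5 ^ s)), F ∈ Wd5 (d + 1) → dX F ∈ Wd5 d := by
      intro d F hF
      have := hdX _ _ hF
      rwa [add_sub_cancel_right] at this
    have hY : ∀ (d : ℤ) (F : Fn5 (5 ^ r) (5 ^ s)), F ∈ Wd5 (d + 1) → dY F ∈ Wd5 d := by
      intro d F hF
      have := hdY _ _ hF
      rwa [add_sub_cancel_right] at this
    have hE2m : E2 ∈ (Wd5 e : Submodule (ZMod 5) (Fn5 (5 ^ r) (5 ^ s))) := by
      rw [hE2]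
      exact Submodule.add_mem _ (Submodule.sub_mem _ (Submodule.sub_mem _
        (Submodule.add_mem _ (hX _ _ hP) (hY _ _ hQ)) (hX _ _ hP1m)) (hY _ _ hQ3m))
        (Submodule.smul_mem _ _ (hX _ _ hQ3m))
    have hle : (Wd5 e : Submodule (ZMod 5) (Fn5 (5 ^ r) (5 ^ s))) ≤ Wd5 (e + 1) :=
      hmono _ _ (by linarith)
    refine ⟨-P1, (2 : ZMod 5) • Q3 + (2 : ZMod 5) • E2, -((2 : ZMod 5) • Q3),
      Submodule.neg_mem _ hP1m, Submodule.add_mem _ (Submodule.smul_mem _ _ hQ3m)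
        (Submodule.smul_mem _ _ (hle hE2m)), Submodule.neg_mem _ (Submodule.smul_mem _ _ hQ3m), ?_⟩
    rw [← hPQ, alg_Sur (op5 4 (-1) 2 (-2)) (op5 6 (-5) 2 (-8)) (op5 1 (-1) 2 (-9)) (op5 1 1 0 1)
      dX dY P Q (rho_M hTrm r s) hP1 hQ3 hE2]
    have c1 : op5 1 1 0 1 P1 - P1 - dX P1 ∈
        (Wd5 (e - 1) : Submodule (ZMod 5) (Fn5 (5 ^ r) (5 ^ s))) :=
      hmono _ _ (by linarith) (hA _ _ hP1m)
    have c2 : op5 1 (-1) 2 (-9) Q3 - Q3 + dX Q3 - (2 : ZMod 5) • dY Q3 ∈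
        (Wd5 (e - 1) : Submodule (ZMod 5) (Fn5 (5 ^ r) (5 ^ s))) :=
      hmono _ _ (by linarith) (hM _ _ hQ3m)
    have cX : ∀ F : Fn5 (5 ^ r) (5 ^ s), F ∈ Wd5 (e + 1) →
        op5 4 (-1) 2 (-2) (dX F) - (3 : ZMod 5) • dX (op5 4 (-1) 2 (-2) F) ∈
          (Wd5 (e - 1) : Submodule (ZMod 5) (Fn5 (5 ^ r) (5 ^ s))) := fun F hF =>
      hmono _ _ (by linarith) (hcX _ _ hF)
    have cY : ∀ F : Fn5 (5 ^ r) (5 ^ s), F ∈ Wd5 (e + 1) →
        op5 4 (-1) 2 (-2) (dY F) - (2 : ZMod 5) • dY (op5 4 (-1) 2 (-2) F) ∈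
          (Wd5 (e - 1) : Submodule (ZMod 5) (Fn5 (5 ^ r) (5 ^ s))) := fun F hF =>
      hmono _ _ (by linarith) (hcY _ _ hF)
    have cS : ∀ F : Fn5 (5 ^ r) (5 ^ s), F ∈ Wd5 (e + 1) →
        op5 4 (-1) 2 (-2) (op5 4 (-1) 2 (-2) F) + F ∈
          (Wd5 (e - 1 + 1) : Submodule (ZMod 5) (Fn5 (5 ^ r) (5 ^ s))) := fun F hF => by
      rw [rho_sq hTrm r s F]
      have := hod (e + 1) F hF hodd
      rwa [show e + 1 - 1 = e - 1 + 1 by ring] at this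
    exact Submodule.add_mem _ (Submodule.add_mem _ (Submodule.sub_mem _ (Submodule.add_mem _
      (Submodule.add_mem _ (Submodule.sub_mem _ (Submodule.sub_mem _ (Submodule.add_mem _
        (Submodule.neg_mem _ c1) (Submodule.smul_mem _ _ (hρ _ _ c2))) (cX _ hQ3m)) (cY _ hQ3m))
        (Submodule.smul_mem _ _ (cX _ (Submodule.sub_mem _ hP hP1m))))
        (Submodule.smul_mem _ _ (cY _ (Submodule.sub_mem _ hQ hQ3m))))
        (hX _ _ (cS _ hP))) (Submodule.smul_mem _ _ (hY _ _ (cS _ hQ))))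
        (Submodule.smul_mem _ _ (hX _ _ (cS _ hQ)))
  · have ha : (2 : ZMod 5) • (E + op5 4 (-1) 2 (-2) E) ∈
        (Wd5 e : Submodule (ZMod 5) (Fn5 (5 ^ r) (5 ^ s))) :=
      Submodule.smul_mem _ _ (Submodule.add_mem _ hE (hρ _ _ hE))
    refine ⟨0, (2 : ZMod 5) • (E + op5 4 (-1) 2 (-2) E), 0, Submodule.zero_mem _,
      hmono _ _ (by linarith) ha, Submodule.zero_mem _, ?_⟩
    have h1 := hod e _ hE hpar
    have h2 : E - (0 - op5 1 1 0 1 0 - ((2 : ZMod 5) • (E + op5 4 (-1) 2 (-2) E) -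
        op5 4 (-1) 2 (-2) ((2 : ZMod 5) • (E + op5 4 (-1) 2 (-2) E))) -
        (0 - op5 6 (-5) 2 (-8) 0)) = (3 : ZMod 5) • (op5 3 (-1) 2 (-3) E + E) := by
      simp only [map_zero, map_add, map_smul, rho_sq hTrm r s E]
      match_scalars <;> decide
    rw [h2]
    exact Submodule.smul_mem _ _ h1

private theorem main_Sur (hTrm : S5Trm) (hLow0 : S5Low0) (hNfa : S5Nfa) (hLw1 : S5Lw1)
    (hw : TLw1) (hBb : S5Bb) (r s : ℕ) :
    ∀ (n : ℕ) (e : ℤ) (E : Fn5 (5 ^ r) (5 ^ s)), e < n → e < 5 ^ r + 5 ^ s - 2 → E ∈ Wd5 e →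
    ∃ f a b : Fn5 (5 ^ r) (5 ^ s), f ∈ Wd5 (e + 1) ∧ a ∈ Wd5 (e + 1) ∧ b ∈ Wd5 (e + 1) ∧
      f - op5 1 1 0 1 f - (a - op5 4 (-1) 2 (-2) a) - (b - op5 6 (-5) 2 (-8) b) = E := by
  have hL := hLow0 r s
  obtain ⟨_, _, _, _, hmono, _, _, _, _, _, _, _, _, hneg⟩ := hL
  intro n
  induction n with
  | zero =>
    intro e E he _ hE
    have h1 : E = 0 := hneg E (hmono e (-1) (by
      have : e < 0 := by exact_mod_cast he
      omega) hE)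
    refine ⟨0, 0, 0, Submodule.zero_mem _, Submodule.zero_mem _, Submodule.zero_mem _, ?_⟩
    rw [h1, map_zero, map_zero, map_zero]
    simp
  | succ n ih =>
    intro e E he he2 hE
    obtain ⟨f, a, b, hf, ha, hb, hR⟩ := step_Sur hTrm hLow0 hNfa hLw1 hw hBb r s e E he2 hE
    obtain ⟨f', a', b', hf', ha', hb', hR'⟩ := ih (e - 1) _ (by push_cast at he; linarith)
      (by linarith) hR
    have h6 : e - 1 + 1 = e := by ring
    rw [h6] at hf' ha' hb'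
    refine ⟨f + f', a + a', b + b', Submodule.add_mem _ hf (hmono _ _ (by linarith) hf'),
      Submodule.add_mem _ ha (hmono _ _ (by linarith) ha'),
      Submodule.add_mem _ hb (hmono _ _ (by linarith) hb'), ?_⟩
    rw [map_add (op5 1 1 0 1) f f', map_add (op5 4 (-1) 2 (-2)) a a',
      map_add (op5 6 (-5) 2 (-8)) b b']
    have h7 : f + f' - (op5 1 1 0 1 f + op5 1 1 0 1 f') -
        (a + a' - (op5 4 (-1) 2 (-2) a + op5 4 (-1) 2 (-2) a')) -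
        (b + b' - (op5 6 (-5) 2 (-8) b + op5 6 (-5) 2 (-8) b')) =
        (f - op5 1 1 0 1 f - (a - op5 4 (-1) 2 (-2) a) - (b - op5 6 (-5) 2 (-8) b)) +
        (f' - op5 1 1 0 1 f' - (a' - op5 4 (-1) 2 (-2) a') - (b' - op5 6 (-5) 2 (-8) b')) := by
      abel
    rw [h7, hR']
    abel

theorem hSur (ht : S5Trm) (hl : S5Low0) (hn : S5Nfa) (h1 : S5Lw1) (hw : TLw1) (hb : S5Bb) :
    TSur := by
  intro r s e E he hE
  exact main_Sur ht hl hn h1 hw hb r s (e + 1).toNat e E (by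
    have := Int.self_le_toNat (e + 1)
    linarith) he hE

end Pool.Agent.Helper9.TH
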